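import Pool.Agent.Helper1.OQ.Assembly

/-!
MP_f8e2d3_co: hosts with a one-sided degree bound. Reachability and the protected sets.
-/

set_option autoImplicit false
set_option linter.unusedSectionVars false

namespace Pool.Agent.Helper1.OE

open Pool.Agent.Helper1.OP
open Pool.Agent.Helper1.OQ (dom hits vis)

variable {V : Type*} [Fintype V] [DecidableEq V]

/-- The ends of the walks with `r` steps from `w` that follow `T`. -/
def rch (T : V → Finset V) : ℕ → V → Finset V
  | 0, w => {w}
  | r + 1, w => (T w).biUnion (rch T r)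

theorem rch_card (T : V → Finset V) (Λ : ℕ) (hT : ∀ w, (T w).card ≤ Λ) (r : ℕ) :
    ∀ w, (rch T r w).card ≤ Λ ^ r := by
  induction r with
  | zero =>
    intro w
    simp [rch]
  | succ r ih =>
    intro w
    rw [rch]
    refine Finset.card_biUnion_le.trans ((Finset.sum_le_sum fun y _ => ih y).trans ?_)
    rw [Finset.sum_const, smul_eq_mul, pow_succ, mul_comm]
    exact Nat.mul_le_mul_left _ (hT w)

theorem rch_append (T : V → Finset V) (r : ℕ) :
    ∀ w z y, z ∈ rch T r w → y ∈ T z → y ∈ rch T (r + 1) w := by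
  induction r with
  | zero =>
    intro w z y hz hy
    rw [rch, Finset.mem_singleton] at hz
    subst hz
    rw [rch, Finset.mem_biUnion]
    exact ⟨y, hy, by simp [rch]⟩
  | succ r ih =>
    intro w z y hz hy
    rw [rch, Finset.mem_biUnion] at hz
    obtain ⟨u, hu, hz⟩ := hz
    rw [rch, Finset.mem_biUnion]
    exact ⟨u, hu, ih u z y hz hy⟩

/-- The ends of the walks with between `1` and `j` steps from `w` that follow `T b`. -/
def Rc (T : Bool → V → Finset V) (j : ℕ) (b : Bool) (w : V) : Finset V :=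
  (Finset.Icc 1 j).biUnion fun r => rch (T b) r w

theorem Rc_card (T : Bool → V → Finset V) (Λ j : ℕ) (hΛ : 1 ≤ Λ) (hT : ∀ b w, (T b w).card ≤ Λ)
    (b : Bool) (w : V) : (Rc T j b w).card ≤ j * Λ ^ j := by
  unfold Rc
  refine Finset.card_biUnion_le.trans ?_
  have h : ∀ r ∈ Finset.Icc 1 j, (rch (T b) r w).card ≤ Λ ^ j := by
    intro r hr
    rw [Finset.mem_Icc] at hr
    exact (rch_card (T b) Λ (hT b) r w).trans (Nat.pow_le_pow_right hΛ hr.2)
  refine (Finset.sum_le_sum h).trans ?_
  rw [Finset.sum_const, smul_eq_mul, Nat.card_Icc]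
  simp

theorem mem_Rc (T : Bool → V → Finset V) (j : ℕ) (b : Bool) (w u z : V) (r : ℕ)
    (hu : u ∈ T b w) (hz : z ∈ rch (T b) r u) (hr : r + 1 ≤ j) : z ∈ Rc T j b w := by
  unfold Rc
  rw [Finset.mem_biUnion]
  refine ⟨r + 1, Finset.mem_Icc.2 ⟨by omega, hr⟩, ?_⟩
  rw [rch, Finset.mem_biUnion]
  exact ⟨u, hu, hz⟩

/-- The sets that are protected because of a new vertex `y` reached from `z` by letter `c`. -/
def R (T : Bool → V → Finset V) (j Λ Λ₂ : ℕ) (c : Bool) (y z : V) : Finset (Bool × V) :=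
  Finset.univ.filter fun e => (y ∈ T e.1 e.2 ∧ (dom T e.1 y).card ≤ Λ) ∨
    (e.1 = !c ∧ z ∈ T e.1 e.2 ∧ y ∈ Rc T j e.1 e.2 ∧
      ((dom T e.1 z).filter fun w => y ∈ Rc T j e.1 w).card ≤ Λ₂)

theorem R_nonempty (T : Bool → V → Finset V) (j Λ Λ₂ : ℕ) (c : Bool) (y z : V) (e : Bool × V)
    (he : e ∈ R T j Λ Λ₂ c y z) : (T e.1 e.2).Nonempty := by
  unfold R at he
  rw [Finset.mem_filter] at he
  obtain ⟨_, ⟨h, _⟩ | ⟨_, h, _⟩⟩ := he
  · exact ⟨_, h⟩
  · exact ⟨_, h⟩

theorem R_card (T : Bool → V → Finset V) (j Λ Λ₂ : ℕ) (c : Bool) (y z : V) :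
    (R T j Λ Λ₂ c y z).card ≤ 2 * Λ + Λ₂ := by
  have h : R T j Λ Λ₂ c y z ⊆
      ((if (dom T true y).card ≤ Λ then (dom T true y).image (fun w => (true, w)) else ∅) ∪
      (if (dom T false y).card ≤ Λ then (dom T false y).image (fun w => (false, w)) else ∅)) ∪
      (if ((dom T (!c) z).filter fun w => y ∈ Rc T j (!c) w).card ≤ Λ₂ then
        ((dom T (!c) z).filter fun w => y ∈ Rc T j (!c) w).image (fun w => (!c, w)) else ∅) := by
    rintro ⟨b, w⟩ he
    unfold R at he
    rw [Finset.mem_filter] at he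
    obtain ⟨_, ⟨hy, h1⟩ | ⟨h1, h2, h3, h4⟩⟩ := he
    · apply Finset.mem_union_left
      have hw : w ∈ dom T b y := by
        unfold dom
        simpa using hy
      cases b
      · apply Finset.mem_union_right
        rw [if_pos h1]
        exact Finset.mem_image.2 ⟨w, hw, rfl⟩
      · apply Finset.mem_union_left
        rw [if_pos h1]
        exact Finset.mem_image.2 ⟨w, hw, rfl⟩
    · apply Finset.mem_union_right
      simp only at h1 h2 h3 h4
      subst h1
      rw [if_pos h4]
      refine Finset.mem_image.2 ⟨w, ?_, rfl⟩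
      rw [Finset.mem_filter]
      refine ⟨?_, h3⟩
      unfold dom
      simpa using h2
  refine (Finset.card_le_card h).trans ((Finset.card_union_le _ _).trans ?_)
  have h1 : ((if (dom T true y).card ≤ Λ then
      (dom T true y).image (fun w => (true, w)) else ∅) : Finset (Bool × V)).card ≤ Λ := by
    split_ifs with h
    · exact Finset.card_image_le.trans h
    · simp
  have h2 : ((if (dom T false y).card ≤ Λ then
      (dom T false y).image (fun w => (false, w)) else ∅) : Finset (Bool × V)).card ≤ Λ := by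
    split_ifs with h
    · exact Finset.card_image_le.trans h
    · simp
  have h3 : ((if ((dom T (!c) z).filter fun w => y ∈ Rc T j (!c) w).card ≤ Λ₂ then
        ((dom T (!c) z).filter fun w => y ∈ Rc T j (!c) w).image (fun w => (!c, w)) else ∅) :
        Finset (Bool × V)).card ≤ Λ₂ := by
    split_ifs with h
    · exact Finset.card_image_le.trans h
    · simp
  have h4 := Finset.card_union_le
    ((if (dom T true y).card ≤ Λ then (dom T true y).image (fun w => (true, w)) else ∅) :
      Finset (Bool × V))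
    (if (dom T false y).card ≤ Λ then (dom T false y).image (fun w => (false, w)) else ∅)
  omega

/-- The exclusion property of an unprotected set `T b w`: a child (with letter `!b`) of a hit is
not reached from `w`. -/
def Good (T : Bool → V → Finset V) (j : ℕ) (μ : ℕ → Bool) (par : ℕ → ℕ) (Y : ℕ → V) (t : ℕ)
    (e : Bool × V) : Prop :=
  ∀ l, 1 ≤ l → l < t → μ l = !e.1 → par l ∈ hits Y 1 t (T e.1 e.2) → Y l ∉ Rc T j e.1 e.2

theorem Good_congr (T : Bool → V → Finset V) (j : ℕ) (μ : ℕ → Bool) (par : ℕ → ℕ)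
    (Y Y' : ℕ → V) (t t' : ℕ) (e : Bool × V) (h : ∀ i < t, Y' i = Y i) (ht : t' ≤ t)
    (hG : Good T j μ par Y t' e) : Good T j μ par Y' t' e := by
  intro l h1 h2 h3 h4
  rw [OQ.hits_congr Y Y' 1 t t' _ h ht] at h4
  rw [h l (by omega)]
  exact hG l h1 h2 h3 h4

end Pool.Agent.Helper1.OE
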