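import Pool.Agent.Helper1.OQ.Comb
import Pool.Agent.Helper1.OE.Assembly

/-!
MP_f8e2d3_co: hosts with a one-sided degree bound. The combinatorial part.
-/

set_option autoImplicit false

namespace Pool.Agent.Helper1.OE

open Pool.Agent.Helper1.OQ (mu pr)

/-- The number of letters `true` among the first `i` letters. -/
def ct (σ : ℕ → Bool) : ℕ → ℕ
  | 0 => 0
  | i + 1 => ct σ i + if σ i = true then 1 else 0

theorem ct_mono (σ : ℕ → Bool) (i j : ℕ) (h : i ≤ j) : ct σ i ≤ ct σ j := by
  induction j with
  | zero => simp [Nat.le_zero.1 h]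
  | succ j ih =>
    rcases Nat.lt_or_ge i (j + 1) with h1 | h1
    · have := ih (by omega)
      rw [ct]
      omega
    · have : i = j + 1 := by omega
      rw [this]

/-- The start: no side ever has a majority of letters `true`. -/
theorem start (σ : ℕ → Bool) (k : ℕ) (hσ : ∀ p, k ≤ p → σ p = false) :
    ∃ m ≤ k, (∀ i, 2 * ct σ i + m ≤ 2 * ct σ m + i) := by
  obtain ⟨m, hm, hmax⟩ := Finset.exists_max_image (Finset.range (k + 1))
    (fun i => (2 * ct σ i : ℤ) - i) ⟨0, by simp⟩
  rw [Finset.mem_range] at hm
  have hbey : ∀ l, ct σ (k + l) = ct σ k := by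
    intro l
    induction l with
    | zero => rfl
    | succ l ih =>
      show ct σ (k + l + 1) = _
      rw [ct, hσ (k + l) (by omega), ih]
      simp
  refine ⟨m, by omega, ?_⟩
  intro i
  rcases Nat.lt_or_ge i (k + 1) with h | h
  · have := hmax i (Finset.mem_range.2 h)
    omega
  · have h1 := hmax k (Finset.mem_range.2 (by omega))
    have h2 := hbey (i - k)
    have h3 : k + (i - k) = i := by omega
    rw [h3] at h2
    rw [h2]
    omega

/-- The number of outward letters `true` before time `t`. -/
def W (μ : ℕ → Bool) : ℕ → ℕ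
  | 0 => 0
  | 1 => 0
  | t + 2 => W μ (t + 1) + if μ (t + 1) = true then 1 else 0

theorem W_succ (μ : ℕ → Bool) (t : ℕ) (ht : 1 ≤ t) :
    W μ (t + 1) = W μ t + if μ t = true then 1 else 0 := by
  obtain ⟨s, rfl⟩ : ∃ s, t = s + 1 := ⟨t - 1, by omega⟩
  rfl

theorem W_mono (μ : ℕ → Bool) (s t : ℕ) (hs : 1 ≤ s) (h : s ≤ t) : W μ s ≤ W μ t := by
  induction t with
  | zero => omega
  | succ t ih =>
    rcases Nat.lt_or_ge s (t + 1) with h1 | h1
    · have := ih (by omega)
      rw [W_succ μ t (by omega)]
      omega
    · have : s = t + 1 := by omega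
      rw [this]

theorem W_front (σ : ℕ → Bool) (m a : ℕ) (t : ℕ) (ht : 1 ≤ t) (hta : t ≤ a + 1) :
    W (mu σ m a) t + ct σ m = ct σ (m + t - 1) := by
  induction t with
  | zero => omega
  | succ t ih =>
    rcases Nat.eq_zero_or_pos t with h | h
    · subst h
      simp [W]
    · have h1 := ih (by omega) (by omega)
      rw [W_succ _ t (by omega)]
      have h2 : m + (t + 1) - 1 = (m + t - 1) + 1 := by omega
      rw [h2, ct]
      have h3 : mu σ m a t = σ (m + t - 1) := by
        unfold mu
        rw [if_pos (by omega)]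
      rw [h3]
      omega

theorem W_back (σ : ℕ → Bool) (m a l : ℕ) (hl : l ≤ m) :
    W (mu σ m a) (a + 1 + l) + ct σ m = W (mu σ m a) (a + 1) + l + ct σ (m - l) := by
  induction l with
  | zero => simp
  | succ l ih =>
    have h1 := ih (by omega)
    have h2 : a + 1 + (l + 1) = (a + 1 + l) + 1 := by omega
    rw [h2, W_succ _ (a + 1 + l) (by omega)]
    have h3 : mu σ m a (a + 1 + l) = !σ (m - (l + 1)) := by
      unfold mu
      rw [if_neg (by omega)]
      congr 2
      omega
    rw [h3]
    have h4 : m - l = (m - (l + 1)) + 1 := by omega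
    rw [h4, ct] at h1
    cases hs : σ (m - (l + 1))
    · simp [hs] at h1 ⊢
      omega
    · simp [hs] at h1 ⊢
      omega

theorem W_le (σ : ℕ → Bool) (m a M : ℕ) (hst : ∀ i, 2 * ct σ i + m ≤ 2 * ct σ m + i)
    (hM : a + m ≤ M) (t : ℕ) (ht : 1 ≤ t) (htM : t ≤ M + 1) :
    2 * W (mu σ m a) t + 1 ≤ t + (M - (a + m)) := by
  have hf : ∀ t, 1 ≤ t → t ≤ a + 1 → 2 * W (mu σ m a) t + 1 ≤ t := by
    intro t ht hta
    have h1 := W_front σ m a t ht hta
    have h2 := hst (m + t - 1)
    omega
  have hb : ∀ l, l ≤ m → 2 * W (mu σ m a) (a + 1 + l) ≤ a + l := by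
    intro l hl
    have h1 := W_back σ m a l hl
    have h2 := hst (m - l)
    have h3 := hf (a + 1) (by omega) le_rfl
    omega
  have hc : ∀ l, W (mu σ m a) (a + 1 + m + l) ≤ W (mu σ m a) (a + 1 + m) + l := by
    intro l
    induction l with
    | zero => simp
    | succ l ih =>
      have h2 : a + 1 + m + (l + 1) = (a + 1 + m + l) + 1 := by omega
      rw [h2, W_succ _ (a + 1 + m + l) (by omega)]
      split_ifs <;> omega
  rcases Nat.lt_or_ge (a + 1) t with h | h
  · rcases Nat.lt_or_ge (a + 1 + m) t with h' | h'
    · have h1 := hc (t - (a + 1 + m))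
      have h2 : a + 1 + m + (t - (a + 1 + m)) = t := by omega
      rw [h2] at h1
      have h3 := hb m le_rfl
      omega
    · have h1 := hb (t - (a + 1)) (by omega)
      have h2 : a + 1 + (t - (a + 1)) = t := by omega
      rw [h2] at h1
      omega
  · have := hf t ht h
    omega

theorem sep_count (μ : ℕ → Bool) (a jj : ℕ) (f : Finset ℕ) :
    Sep μ (pr a) jj f → ∀ t, f ⊆ Finset.Ico 1 t →
    (jj + 1) * f.card ≤ (jj + 1) * (W μ t + (if a + 1 < t then 1 else 0) + 1) + t := by
  induction f using Finset.induction_on_max with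
  | empty =>
    intro _ t _
    simp
  | insert i s hmax ih =>
    intro hS t hft
    have hi : i ∈ Finset.Ico 1 t := hft (Finset.mem_insert_self _ _)
    rw [Finset.mem_Ico] at hi
    have hmon : (jj + 1) * (W μ (i + 1) + (if a + 1 < i + 1 then 1 else 0) + 1) + (i + 1) ≤
        (jj + 1) * (W μ t + (if a + 1 < t then 1 else 0) + 1) + t := by
      have h1 := W_mono μ (i + 1) t (by omega) (by omega)
      have h2 : (if a + 1 < i + 1 then 1 else 0) ≤ (if a + 1 < t then 1 else 0) := by
        split_ifs <;> omega
      have h3 : (jj + 1) * (W μ (i + 1) + (if a + 1 < i + 1 then 1 else 0) + 1) ≤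
          (jj + 1) * (W μ t + (if a + 1 < t then 1 else 0) + 1) :=
        Nat.mul_le_mul_left _ (by omega)
      omega
    refine le_trans ?_ hmon
    have hnot : i ∉ s := fun h => lt_irrefl _ (hmax i h)
    rw [Finset.card_insert_of_notMem hnot]
    rcases Finset.eq_empty_or_nonempty s with hs | hs
    · subst hs
      have h1 : (jj + 1) * (0 + 1) ≤
          (jj + 1) * (W μ (i + 1) + (if a + 1 < i + 1 then 1 else 0) + 1) :=
        Nat.mul_le_mul_left _ (by omega)
      simp only [Finset.card_empty]
      omega
    · set i' := s.max' hs with hi'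
      have hi's : i' ∈ s := s.max'_mem hs
      have hlt : i' < i := hmax i' hi's
      have h1i' : 1 ≤ i' := by
        have := hft (Finset.mem_insert_of_mem hi's)
        rw [Finset.mem_Ico] at this
        exact this.1
      have hSs : Sep μ (pr a) jj s := by
        intro x hx r h1 h2 h3 h4 h5
        exact hS x (Finset.mem_insert_of_mem hx) r h1 h2 h3 h4 (Finset.mem_insert_of_mem h5)
      have h1 := ih hSs (i' + 1) (by
        intro x hx
        have h2 := s.le_max' x hx
        have h3 := hft (Finset.mem_insert_of_mem hx)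
        rw [Finset.mem_Ico] at h3 ⊢
        omega)
      have hkey : (jj + 1) * (W μ (i' + 1) + (if a + 1 < i' + 1 then 1 else 0) + 1) + (i' + 1) +
          (jj + 1) ≤
          (jj + 1) * (W μ (i + 1) + (if a + 1 < i + 1 then 1 else 0) + 1) + (i + 1) := by
        have hW := W_mono μ (i' + 1) (i + 1) (by omega) (by omega)
        have hA : (if a + 1 < i' + 1 then 1 else 0) ≤ (if a + 1 < i + 1 then 1 else 0) := by
          split_ifs <;> omega
        by_cases hsum : W μ (i' + 1) + (if a + 1 < i' + 1 then 1 else 0) <
            W μ (i + 1) + (if a + 1 < i + 1 then 1 else 0)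
        · have h2 : (jj + 1) * (W μ (i' + 1) + (if a + 1 < i' + 1 then 1 else 0) + 1 + 1) ≤
            (jj + 1) * (W μ (i + 1) + (if a + 1 < i + 1 then 1 else 0) + 1) :=
            Nat.mul_le_mul_left _ (by omega)
          rw [Nat.mul_succ (jj + 1) (W μ (i' + 1) + (if a + 1 < i' + 1 then 1 else 0) + 1)] at h2
          omega
        · have hW' : W μ (i' + 1) = W μ (i + 1) := by omega
          have hA' : (if a + 1 < i' + 1 then 1 else 0) = (if a + 1 < i + 1 then 1 else 0) := by
            omega
          have hlet : ∀ l, i' + 1 ≤ l → l ≤ i → μ l = false := by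
            intro l h2 h3
            by_contra hcon
            have h4 : μ l = true := by
              cases h : μ l
              · exact absurd h hcon
              · rfl
            have h5 := W_succ μ l (by omega)
            rw [h4] at h5
            simp only [if_true] at h5
            have h6 := W_mono μ (i' + 1) l (by omega) (by omega)
            have h7 := W_mono μ (l + 1) (i + 1) (by omega) (by omega)
            omega
          have hpar : ∀ l, i' + 1 ≤ l → l ≤ i → pr a l = l - 1 := by
            intro l h2 h3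
            unfold pr
            rw [if_neg]
            intro h4
            rw [if_neg (by omega), if_pos (by omega)] at hA'
            omega
          have hge : jj + 1 ≤ i - i' := by
            by_contra hcon
            push Not at hcon
            apply hS i (Finset.mem_insert_self _ _) (i - i') (by omega) (by omega) (by omega)
            · intro m hm
              exact ⟨hpar (i - m) (by omega) (by omega), hlet (i - m) (by omega) (by omega)⟩
            · have : i - (i - i') = i' := by omega
              rw [this]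
              exact Finset.mem_insert_of_mem hi's
          rw [hW', hA']
          omega
      have h2 : (jj + 1) * (s.card + 1) = (jj + 1) * s.card + (jj + 1) := by ring
      omega

/-- (C) -/
theorem comb (σ : ℕ → Bool) (m a M jj : ℕ) (hst : ∀ i, 2 * ct σ i + m ≤ 2 * ct σ m + i)
    (hM : a + m ≤ M) (t : ℕ) (ht : 1 ≤ t) (htM : t ≤ M + 1) (f : Finset ℕ)
    (hf : f ⊆ Finset.Ico 1 t) (hS : Sep (mu σ m a) (pr a) jj f) :
    (jj + 1) * (2 * f.card) ≤ (jj + 1) * (t + (M - (a + m)) + 3) + 2 * t := by
  have h1 := sep_count (mu σ m a) a jj f hS t hf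
  have h2 := W_le σ m a M hst hM t ht htM
  have h3 : (jj + 1) * (2 * (W (mu σ m a) t + (if a + 1 < t then 1 else 0) + 1)) ≤
      (jj + 1) * (t + (M - (a + m)) + 3) := by
    apply Nat.mul_le_mul_left
    split_ifs <;> omega
  calc (jj + 1) * (2 * f.card) = 2 * ((jj + 1) * f.card) := by ring
    _ ≤ 2 * ((jj + 1) * (W (mu σ m a) t + (if a + 1 < t then 1 else 0) + 1) + t) :=
      Nat.mul_le_mul_left _ h1
    _ = (jj + 1) * (2 * (W (mu σ m a) t + (if a + 1 < t then 1 else 0) + 1)) + 2 * t := by ring
    _ ≤ _ := by omega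

end Pool.Agent.Helper1.OE
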