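import Pool.Agent.Helper1.OQ.Numerics

/-!
MP_f8e2d3_co: hosts with a one-sided degree bound. The numerics.
-/

set_option autoImplicit false

namespace Pool.Agent.Helper1.OE

open Pool.Agent.Helper1.OP (pow_small pow_large)
open Pool.Agent.Helper1.OQ (step_ineq)

/-- (N) -/
theorem numerics (ε : ℝ) (hε : 0 < ε) (hε' : ε ≤ 1 / 2) (jj : ℕ) (hjj : 1 ≤ jj) :
    ∃ c : ℝ, 0 < c ∧ ∃ k₀ : ℕ, ∀ k : ℕ, k₀ ≤ k → ∃ J L L' K q B D₀ : ℕ,
      1 ≤ q ∧ 1 ≤ L ∧ L ≤ 2 * L' ∧ K * L < D₀ ∧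
      2 * (J * (K * L) + 1 + (D₀ + J * (L' * K + B))) ≤ ⌊Real.exp (c * k)⌋₊ ∧
      (∀ D : ℕ, D₀ ≤ D →
        1 + (1 / (q : ℝ)) * (1 + 1 / (q : ℝ)) ^ L * ((L + 1) * D / (2 * (D - (K * L : ℕ)))) ≤
          (1 + 1 / (q : ℝ)) ^ L') ∧
      (((2 * ⌊Real.exp (c * k)⌋₊ + 2 * (jj * ⌊Real.exp (c * k)⌋₊ ^ jj)) *
        (J * (K * L) + 1) : ℕ) : ℝ) * (1 + 1 / (q : ℝ)) ^ L < (1 + 1 / (q : ℝ)) ^ (B + 1) ∧
      k + L ≤ J * (K * L) ∧
      ((2 * (L' * (J * K)) + J * (K * L) + 10 + 2 * D₀ + 2 * (J * B) : ℕ) : ℝ) ≤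
        2 * k + 2 * ε * k := by
  obtain ⟨L, hL⟩ := exists_nat_ge (24 / ε)
  obtain ⟨q, hq⟩ := exists_nat_ge (48 * L / ε)
  obtain ⟨J, hJ⟩ := exists_nat_ge (384 / ε ^ 2)
  obtain ⟨L', hL'⟩ : ∃ L' : ℕ, L' = ⌈(1 / 2 + ε / 8) * (L : ℝ)⌉₊ := ⟨_, rfl⟩
  have hL0 : (0 : ℝ) < L := lt_of_lt_of_le (by positivity) hL
  have hJ0 : (0 : ℝ) < J := lt_of_lt_of_le (by positivity) hJ
  have hq0 : (0 : ℝ) < q := lt_of_lt_of_le (by positivity) hq
  have hL48 : (48 : ℝ) ≤ L := by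
    refine le_trans ?_ hL
    rw [le_div_iff₀ hε]
    linarith
  have hL'1 : (1 / 2 + ε / 8) * (L : ℝ) ≤ L' := by rw [hL']; exact Nat.le_ceil _
  have hL'2 : (L' : ℝ) ≤ (1 / 2 + ε / 8) * L + 1 := by
    rw [hL']
    exact (Nat.ceil_lt_add_one (by positivity)).le
  have hL'3 : (L' : ℝ) ≤ L := by nlinarith
  have hLn : 1 ≤ L := by
    have : 0 < L := by exact_mod_cast hL0
    omega
  have hJn : 1 ≤ J := by
    have : 0 < J := by exact_mod_cast hJ0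
    omega
  have hqn : 1 ≤ q := by
    have : 0 < q := by exact_mod_cast hq0
    omega
  have hJr : (1 : ℝ) ≤ J := by exact_mod_cast hJn
  obtain ⟨c, hc⟩ : ∃ c : ℝ, c = ε / (8 * J) := ⟨_, rfl⟩
  have hc0 : 0 < c := by rw [hc]; positivity
  obtain ⟨Y₁, hY₁⟩ : ∃ Y₁ : ℝ, Y₁ = 2 * (J * L) + 2 := ⟨_, rfl⟩
  have hY₁0 : 0 < Y₁ := by rw [hY₁]; positivity
  obtain ⟨Y₂, hY₂⟩ : ∃ Y₂ : ℝ, Y₂ = 2 * (Y₁ + 48 * Y₁ / ε + 1 + Y₁ + 1) := ⟨_, rfl⟩
  have hY₂0 : 0 < Y₂ := by rw [hY₂]; positivity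
  obtain ⟨X₁, hX₁⟩ : ∃ X₁ : ℝ, X₁ = 3 * (2 * (J * L)) + 4 * J + 12 + 2 * (96 * L / ε) :=
    ⟨_, rfl⟩
  have hjj0 : (0 : ℝ) < jj := by exact_mod_cast hjj
  obtain ⟨c₂, hc₂⟩ : ∃ c₂ : ℝ, c₂ = c / ((q + 1) * (2 * jj)) := ⟨_, rfl⟩
  have hc₂0 : 0 < c₂ := by rw [hc₂]; positivity
  obtain ⟨X₂, hX₂⟩ : ∃ X₂ : ℝ, X₂ = (4 + 4 * jj) * Y₁ * (8 * (q + 1) ^ 2) / c ^ 2 := ⟨_, rfl⟩
  obtain ⟨X₃, hX₃⟩ : ∃ X₃ : ℝ, X₃ = 2 * Y₂ / c₂ ^ 2 := ⟨_, rfl⟩
  obtain ⟨k₀, hk₀⟩ := exists_nat_ge (max (max (X₁ / ε) (X₂ + 1)) X₃)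
  refine ⟨c₂, hc₂0, k₀, fun k hk => ?_⟩
  have hkr : (k₀ : ℝ) ≤ k := by exact_mod_cast hk
  have hk1 : X₁ ≤ ε * k := by
    have h1 : X₁ / ε ≤ k :=
      ((le_max_left _ _).trans (le_max_left _ _)).trans (hk₀.trans hkr)
    rw [div_le_iff₀ hε] at h1
    linarith
  have hk2 : X₂ + 1 ≤ k := ((le_max_right _ _).trans (le_max_left _ _)).trans (hk₀.trans hkr)
  have hk4 : X₃ ≤ k := (le_max_right _ _).trans (hk₀.trans hkr)
  have hX₂0 : 0 ≤ X₂ := by rw [hX₂]; positivity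
  have hk3 : (1 : ℝ) ≤ k := by linarith
  have hk0 : (0 : ℝ) < k := by linarith
  obtain ⟨K, hK⟩ : ∃ K : ℕ, K = k / (J * L) + 2 := ⟨_, rfl⟩
  have hJL : 0 < J * L := by positivity
  have hKn1 : k + J * L ≤ J * (K * L) := by
    have h1 := Nat.div_add_mod k (J * L)
    have h2 := Nat.mod_lt k hJL
    have h3 : J * (K * L) = J * L * (k / (J * L)) + 2 * (J * L) := by rw [hK]; ring
    rw [h3]
    omega
  have hKn2 : J * (K * L) ≤ k + 2 * (J * L) := by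
    have h1 := Nat.mul_div_le k (J * L)
    have h3 : J * (K * L) = J * L * (k / (J * L)) + 2 * (J * L) := by rw [hK]; ring
    rw [h3]
    omega
  have hKr2 : (J : ℝ) * (K * L) ≤ k + 2 * (J * L) := by exact_mod_cast hKn2
  have hK0 : 0 < K := by rw [hK]; exact Nat.succ_pos _
  have hKL1 : 1 ≤ K * L := Nat.mul_pos hK0 hLn
  have hKL0 : (0 : ℝ) < (K : ℝ) * L := by exact_mod_cast hKL1
  obtain ⟨D₀, hD₀⟩ : ∃ D₀ : ℕ, D₀ = ⌈48 * ((K * L : ℕ) : ℝ) / ε⌉₊ := ⟨_, rfl⟩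
  have hD1 : 48 * ((K * L : ℕ) : ℝ) / ε ≤ D₀ := by rw [hD₀]; exact Nat.le_ceil _
  have hD2 : (D₀ : ℝ) ≤ 48 * (K * L) / ε + 1 := by
    have h1 := (Nat.ceil_lt_add_one (show 0 ≤ 48 * ((K * L : ℕ) : ℝ) / ε by positivity)).le
    rw [← hD₀] at h1
    push_cast at h1
    exact h1
  obtain ⟨B, hB⟩ : ∃ B : ℕ, B = ⌊c * (k : ℝ)⌋₊ := ⟨_, rfl⟩
  have hB1 : (B : ℝ) ≤ c * k := by rw [hB]; exact Nat.floor_le (by positivity)
  have hB2 : c * k ≤ (B : ℝ) + 1 := by rw [hB]; exact (Nat.lt_floor_add_one _).le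
  have hJB : (J : ℝ) * B ≤ ε / 8 * k := by
    have h1 : (J : ℝ) * B ≤ J * (c * k) := mul_le_mul_of_nonneg_left hB1 hJ0.le
    have h2 : (J : ℝ) * (c * k) = ε / 8 * k := by
      rw [hc]
      field_simp
    linarith
  -- `K L` is small
  have hKLr : (K : ℝ) * L ≤ k / J + 2 * L := by
    have h1 : (K : ℝ) * L ≤ (k + 2 * (J * L)) / J := by
      rw [le_div_iff₀ hJ0]
      linarith
    have h2 : ((k : ℝ) + 2 * (J * L)) / J = k / J + 2 * L := by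
      field_simp
    linarith
  have hJLk : 2 * ((J : ℝ) * L) ≤ 2 * (J * L) * k :=
    le_mul_of_one_le_right (by positivity) hk3
  have hJK : (J : ℝ) * (K * L) + 1 ≤ Y₁ * k := by
    rw [hY₁]
    linarith
  have hKLk : (K : ℝ) * L ≤ Y₁ * k := by
    have h1 : (K : ℝ) * L ≤ J * (K * L) := le_mul_of_one_le_left hKL0.le hJr
    linarith
  have g1 : (1 + 1 / (q : ℝ)) ^ L ≤ 2 := by
    have h1 := pow_small q L (ε / 24) hqn (by
      rw [div_le_iff₀ hq0]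
      rw [div_le_iff₀ hε] at hq
      linarith) (by positivity) (by linarith)
    linarith
  have g2 : (D₀ : ℝ) ≤ 48 * Y₁ / ε * k + k := by
    have h1 : 48 * ((K : ℝ) * L) / ε ≤ 48 * (Y₁ * k) / ε := by gcongr
    have h2 : 48 * (Y₁ * k) / ε = 48 * Y₁ / ε * k := by ring
    linarith
  have g3 : (J : ℝ) * (L' * K) ≤ Y₁ * k := by
    have h1 : (J : ℝ) * (L' * K) ≤ J * (L * K) := by gcongr
    have h2 : (J : ℝ) * (L * K) = J * (K * L) := by ring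
    linarith
  have g4 : (J : ℝ) * B ≤ k := by
    have h1 := mul_le_mul_of_nonneg_right hε' hk0.le
    linarith
  have g5 : 2 * ((J : ℝ) * (K * L) + 1 + (D₀ + J * (L' * K + B))) ≤ Y₂ * k := by
    have h2 : Y₂ * k = 2 * (Y₁ * k + (48 * Y₁ / ε * k + k) + Y₁ * k + k) := by
      rw [hY₂]
      ring
    rw [h2]
    have h3 : (J : ℝ) * (L' * K + B) = J * (L' * K) + J * B := by ring
    rw [h3]
    linarith
  refine ⟨J, L, L', K, q, B, D₀, hqn, hLn, ?_, ?_, ?_, ?_, ?_, ?_, ?_⟩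
  · have h1 : (L : ℝ) ≤ 2 * L' := by
      have h2 : 0 < ε * L := by positivity
      linarith
    exact_mod_cast h1
  · have h1 : ((K * L : ℕ) : ℝ) < D₀ := by
      refine lt_of_lt_of_le ?_ hD1
      rw [lt_div_iff₀ hε]
      push_cast
      have h2 := mul_le_mul_of_nonneg_left hε' hKL0.le
      linarith
    exact_mod_cast h1
  · apply Nat.le_floor
    push_cast
    refine g5.trans ?_
    have h1 := Real.pow_div_factorial_le_exp (c₂ * k) (by positivity) 2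
    have h2 : ((Nat.factorial 2 : ℕ) : ℝ) = 2 := by norm_num [Nat.factorial]
    rw [h2] at h1
    refine le_trans ?_ h1
    rw [hX₃, div_le_iff₀ (by positivity)] at hk4
    have h3 : 2 * Y₂ * k ≤ (k * c₂ ^ 2) * k := mul_le_mul_of_nonneg_right hk4 hk0.le
    have h4 : (c₂ * (k : ℝ)) ^ 2 / 2 = (k * c₂ ^ 2) * k / 2 := by ring
    rw [h4]
    linarith
  · intro D hD
    have hDr : (D₀ : ℝ) ≤ D := by exact_mod_cast hD
    exact step_ineq ε hε hε' L L' (K * L) q D hL hq hKL1 (hD1.trans hDr) hL'1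
  · set Λ : ℕ := ⌊Real.exp (c₂ * k)⌋₊ with hΛ
    set E : ℝ := Real.exp (c₂ * k) with hE
    have hE1 : 1 ≤ E := by
      rw [hE]
      apply Real.one_le_exp
      positivity
    have hΛE : (Λ : ℝ) ≤ E := Nat.floor_le (by linarith)
    have hEj : E ≤ E ^ jj := by
      calc E = E ^ 1 := (pow_one E).symm
        _ ≤ E ^ jj := pow_le_pow_right₀ hE1 hjj
    have hEx : E ^ jj = Real.exp (c * k / (2 * (q + 1))) := by
      rw [hE, ← Real.exp_nat_mul]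
      congr 1
      rw [hc₂]
      field_simp
    have h1 : (((2 * Λ + 2 * (jj * Λ ^ jj)) * (J * (K * L) + 1) : ℕ) : ℝ) ≤
        ((2 + 2 * jj) * E ^ jj) * (Y₁ * k) := by
      push_cast
      have h2 : (Λ : ℝ) ^ jj ≤ E ^ jj := by gcongr
      have h3 : 2 * (Λ : ℝ) + 2 * (jj * (Λ : ℝ) ^ jj) ≤ (2 + 2 * jj) * E ^ jj := by
        have h4 : (jj : ℝ) * (Λ : ℝ) ^ jj ≤ jj * E ^ jj := by gcongr
        linarith
      gcongr
    have g6 : Real.exp (c * k / (q + 1)) ≤ (1 + 1 / (q : ℝ)) ^ (B + 1) := by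
      refine le_trans ?_ (pow_large q (B + 1) hqn)
      refine Real.exp_le_exp.2 ?_
      push_cast
      gcongr
    have g7 : (c * k / (2 * (q + 1))) ^ 2 / 2 ≤ Real.exp (c * k / (2 * (q + 1))) := by
      have h1 := Real.pow_div_factorial_le_exp (c * k / (2 * (q + 1))) (by positivity) 2
      have h2 : ((Nat.factorial 2 : ℕ) : ℝ) = 2 := by norm_num [Nat.factorial]
      rwa [h2] at h1
    have g8 : (4 + 4 * jj) * Y₁ * k < (c * k / (2 * (q + 1))) ^ 2 / 2 := by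
      have h2 : X₂ < k := by linarith
      rw [hX₂, div_lt_iff₀ (by positivity)] at h2
      have h3 : (c * k / (2 * (q + 1))) ^ 2 / 2 = (k * c ^ 2) * k / (8 * (q + 1) ^ 2) := by
        have h6 : ((q : ℝ) + 1) ≠ 0 := by positivity
        field_simp
        ring
      rw [h3, lt_div_iff₀ (by positivity)]
      have h4 := mul_lt_mul_of_pos_right h2 hk0
      calc (4 + 4 * (jj : ℝ)) * Y₁ * k * (8 * (q + 1) ^ 2) =
          (4 + 4 * jj) * Y₁ * (8 * (q + 1) ^ 2) * k := by ring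
        _ < _ := h4
    have g9 : Real.exp (c * k / (q + 1)) =
        Real.exp (c * k / (2 * (q + 1))) * Real.exp (c * k / (2 * (q + 1))) := by
      rw [← Real.exp_add]
      congr 1
      have h6 : ((q : ℝ) + 1) ≠ 0 := by positivity
      field_simp
      ring
    have hx0 := Real.exp_pos (c * k / (2 * (q + 1)))
    have g10 : (4 + 4 * jj) * Y₁ * k < Real.exp (c * k / (2 * (q + 1))) := lt_of_lt_of_le g8 g7
    calc (((2 * Λ + 2 * (jj * Λ ^ jj)) * (J * (K * L) + 1) : ℕ) : ℝ) * (1 + 1 / (q : ℝ)) ^ L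
        ≤ (((2 + 2 * jj) * E ^ jj) * (Y₁ * k)) * 2 := by gcongr
      _ = Real.exp (c * k / (2 * (q + 1))) * ((4 + 4 * jj) * Y₁ * k) := by
        rw [hEx]
        ring
      _ < Real.exp (c * k / (2 * (q + 1))) * Real.exp (c * k / (2 * (q + 1))) :=
        mul_lt_mul_of_pos_left g10 hx0
      _ = Real.exp (c * k / (q + 1)) := g9.symm
      _ ≤ _ := g6
  · have h1 : L ≤ J * L := Nat.le_mul_of_pos_left L hJn
    omega
  · push_cast
    have h1 : 2 * ((L' : ℝ) * (J * K)) ≤ (1 + ε / 4) * (J * (K * L)) + 2 * (J * K) := by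
      have h2 : 2 * ((L' : ℝ) * (J * K)) ≤ 2 * (((1 / 2 + ε / 8) * L + 1) * (J * K)) := by
        gcongr
      have h3 : 2 * (((1 / 2 + ε / 8) * (L : ℝ) + 1) * (J * K)) =
          (1 + ε / 4) * (J * (K * L)) + 2 * (J * K) := by ring
      linarith
    have h2 : 2 * ((J : ℝ) * K) ≤ ε / 8 * k + 4 * J := by
      have h3 : (J : ℝ) * K ≤ (k + 2 * (J * L)) / L := by
        rw [le_div_iff₀ hL0]
        have : (J : ℝ) * K * L = J * (K * L) := by ring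
        linarith
      have h4 : ((k : ℝ) + 2 * (J * L)) / L = k / L + 2 * J := by
        field_simp
      have h5 : (k : ℝ) / L ≤ ε / 16 * k := by
        rw [div_le_iff₀ hL0]
        rw [div_le_iff₀ hε] at hL
        have h6 := mul_le_mul_of_nonneg_left hL hk0.le
        linarith
      linarith
    have h3 : (1 + ε / 4) * ((J : ℝ) * (K * L)) ≤ (1 + ε / 4) * (k + 2 * (J * L)) := by gcongr
    have h4 : 2 * (D₀ : ℝ) ≤ ε / 4 * k + 2 * (96 * L / ε) + 2 := by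
      have h5 : 48 * ((K : ℝ) * L) / ε ≤ 48 * (k / J + 2 * L) / ε := by gcongr
      have h6 : 48 * ((k : ℝ) / J + 2 * L) / ε = 48 / (ε * J) * k + 96 * L / ε := by
        field_simp
        ring
      have h7 : 48 / (ε * J) ≤ ε / 8 := by
        rw [div_le_iff₀ (by positivity)]
        rw [div_le_iff₀ (by positivity)] at hJ
        linarith
      have h8 : 48 / (ε * J) * (k : ℝ) ≤ ε / 8 * k := by gcongr
      linarith
    have h5 : (1 + ε / 4) * ((k : ℝ) + 2 * (J * L)) ≤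
        k + ε / 4 * k + 2 * (2 * (J * L)) := by
      have h6 : 0 < (J : ℝ) * L := mul_pos hJ0 hL0
      have h7 : ε * (J * L) ≤ 1 / 2 * (J * L) := mul_le_mul_of_nonneg_right hε' h6.le
      linarith
    rw [hX₁] at hk1
    have h6 : 0 < ε * k := by positivity
    linarith

end Pool.Agent.Helper1.OE
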