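import Pool.Agent.Helper1.OE.Comb
import Pool.Agent.Helper1.OE.Numerics

/-!
MP_f8e2d3_co: hosts with a one-sided degree bound. The main theorem in neighbourhood form.
-/

set_option autoImplicit false
set_option linter.unusedSectionVars false

namespace Pool.Agent.Helper1.OE

open Pool.Agent.Helper1.OQ (mu pr)

/-- (Main). -/
theorem main (ε : ℝ) (hε : 0 < ε) :
    ∃ c : ℝ, 0 < c ∧ ∃ k₀ : ℕ, ∀ k : ℕ, k₀ ≤ k → ∀ (σ : ℕ → Bool),
      (∀ p, k ≤ p → σ p = false) →
      ∀ (V : Type) [Fintype V] [DecidableEq V] [Nonempty V] (N : Bool → V → Finset V),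
      (∀ b x y, y ∈ N b x → x ∉ N b y) → (∀ b x y, y ∈ N b x → x ∈ N (!b) y) →
      (∀ b v, (1 / 2 + ε) * (k : ℝ) ≤ (N b v).card) →
      (∀ v, ((N true v).card : ℝ) ≤ Real.exp (c * k)) →
      ∃ X : ℕ → V, (∀ i < k, X (i + 1) ∈ N (σ i) (X i)) ∧
        (∀ i ≤ k, ∀ i' ≤ k, X i = X i' → i = i') := by
  set ε' : ℝ := min ε (1 / 2) / 3 with hε'
  have hm0 : 0 < min ε (1 / 2) := lt_min hε (by norm_num)
  have hε'0 : 0 < ε' := by rw [hε']; positivity
  have hε'1 : ε' ≤ 1 / 2 := by
    have := min_le_right ε (1 / 2)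
    rw [hε']
    linarith
  have hε'2 : 3 * ε' ≤ ε := by
    have := min_le_left ε (1 / 2)
    rw [hε']
    linarith
  obtain ⟨jj, hjj⟩ := exists_nat_ge (4 / ε')
  have hjj0 : (0 : ℝ) < jj := lt_of_lt_of_le (by positivity) hjj
  have hjj1 : 1 ≤ jj := by
    have : 0 < jj := by exact_mod_cast hjj0
    omega
  obtain ⟨c, hc, k₀, hnum⟩ := numerics ε' hε'0 hε'1 jj hjj1
  refine ⟨c, hc, k₀, ?_⟩
  intro k hk σ hσ V _ _ hne N hNO hNs hdeg hup
  obtain ⟨x⟩ := hne
  obtain ⟨J, L, L', K, q, B, D₀, hq, hL, hLL, hT, hΛ, hL', hB, hkL, hfin⟩ := hnum k hk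
  obtain ⟨m, hm, hst⟩ := start σ k hσ
  set Λ : ℕ := ⌊Real.exp (c * k)⌋₊ with hΛdef
  -- the front
  obtain ⟨cc, hc⟩ : ∃ c, k - m ≤ c * L ∧ c * L ≤ k - m + L := by
    refine ⟨(k - m) / L + 1, ?_, ?_⟩
    · have h1 := Nat.div_add_mod (k - m) L
      have h2 := Nat.mod_lt (k - m) hL
      have h3 : ((k - m) / L + 1) * L = L * ((k - m) / L) + L := by ring
      omega
    · have h1 := Nat.div_mul_le_self (k - m) L
      have h3 : ((k - m) / L + 1) * L = (k - m) / L * L + L := by ring
      omega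
  obtain ⟨hc1, hc2⟩ := hc
  set a : ℕ := cc * L with ha
  set M : ℕ := J * (K * L) with hM
  have haM : a + m ≤ M := by omega
  set d : ℕ := ⌈(1 / 2 + 3 * ε') * (k : ℝ)⌉₊ with hd
  have hk0 : (0 : ℝ) ≤ k := Nat.cast_nonneg _
  have hdN : ∀ b v, d ≤ (N b v).card := by
    intro b v
    apply Nat.ceil_le.2
    have h1 := hdeg b v
    have h2 : (1 / 2 + 3 * ε') * (k : ℝ) ≤ (1 / 2 + ε) * k := by gcongr
    linarith
  have hdlow : (1 / 2 + 3 * ε') * (k : ℝ) ≤ d := Nat.le_ceil _
  have hsm : ∀ w, (N true w).card ≤ Λ := fun w => Nat.le_floor (hup w)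
  have hlt : ∀ i, 1 ≤ i → pr a i < i := by
    intro i hi
    unfold pr
    split_ifs <;> omega
  have hpar : ∀ n j, 1 ≤ j → j < L → pr a (1 + n * L + j) = 1 + n * L + j - 1 := by
    intro n j h1 h2
    unfold pr
    rw [if_neg]
    intro h3
    have h4 : n * L + j = cc * L := by omega
    rcases Nat.lt_or_ge n cc with h5 | h5
    · have h6 : (n + 1) * L ≤ cc * L := Nat.mul_le_mul_right _ h5
      have h7 : (n + 1) * L = n * L + L := by ring
      omega
    · have h6 : cc * L ≤ n * L := Nat.mul_le_mul_right _ h5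
      omega
  -- the real numbers
  have hMk : k ≤ M := by omega
  have hLM : M ≤ 2 * (L' * (J * K)) := by
    have h1 : J * K * L ≤ J * K * (2 * L') := Nat.mul_le_mul_left _ hLL
    have h2 : J * K * (2 * L') = 2 * (L' * (J * K)) := by ring
    have h3 : M = J * K * L := by rw [hM]; ring
    omega
  have hfin' : (2 : ℝ) * (L' * (J * K)) + M + 10 + 2 * D₀ + 2 * (J * B) ≤
      2 * k + 2 * ε' * k := by
    have h1 := hfin
    push_cast at h1
    linarith
  have hLMr : (M : ℝ) ≤ 2 * (L' * (J * K)) := by exact_mod_cast hLM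
  have hMkr : (k : ℝ) ≤ M := by exact_mod_cast hMk
  have hD0r : (0 : ℝ) ≤ D₀ := Nat.cast_nonneg _
  have hJBr : (0 : ℝ) ≤ (J : ℝ) * B := by positivity
  have hMup : (M : ℝ) + 5 ≤ k + ε' * k := by linarith
  have hF : ∀ n ≤ J * K, ∀ f ⊆ Finset.Ico 1 (1 + n * L), Sep (mu σ m a) (pr a) jj f →
      f.card + 1 + (D₀ + L' * (J * K - n) + J * B) ≤ d := by
    intro n hn f hf hI
    have hnM : n * L ≤ M := by
      calc n * L ≤ (J * K) * L := Nat.mul_le_mul_right _ hn
        _ = M := by rw [hM]; ring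
    have h1 := comb σ m a M jj hst haM (1 + n * L) (by omega) (by omega) f hf hI
    obtain ⟨r, hr⟩ : ∃ r, J * K = n + r := ⟨J * K - n, by omega⟩
    have e1 : J * K - n = r := by omega
    have e2 : L' * (J * K) = L' * n + L' * r := by rw [hr]; ring
    have e3 : n * L ≤ n * (2 * L') := Nat.mul_le_mul_left _ hLL
    have e4 : n * (2 * L') = 2 * (L' * n) := by ring
    rw [e1]
    have h2 : ((jj : ℝ) + 1) * (2 * f.card) ≤
        (jj + 1) * ((1 + n * L) + (M - k) + 3) + 2 * (1 + n * L) := by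
      have h3 : (jj + 1) * (2 * f.card) ≤ (jj + 1) * ((1 + n * L) + (M - k) + 3) +
          2 * (1 + n * L) := by
        refine h1.trans ?_
        apply Nat.add_le_add_right
        apply Nat.mul_le_mul_left
        omega
      have h4 : (((jj + 1) * (2 * f.card) : ℕ) : ℝ) ≤
          (((jj + 1) * ((1 + n * L) + (M - k) + 3) + 2 * (1 + n * L) : ℕ) : ℝ) := by
        exact_mod_cast h3
      push_cast [Nat.cast_sub hMk] at h4
      exact h4
    have h5 : (1 + (n : ℝ) * L) ≤ 2 * k := by
      have h6 : ((n * L : ℕ) : ℝ) ≤ (M : ℝ) := by exact_mod_cast hnM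
      push_cast at h6
      have h7 : ε' * (k : ℝ) ≤ 1 / 2 * k := mul_le_mul_of_nonneg_right hε'1 hk0
      linarith
    have h8 : 2 * (1 + (n : ℝ) * L) ≤ (jj + 1) * (ε' * k) := by
      have h9 : 4 ≤ ε' * (jj : ℝ) := by
        rw [div_le_iff₀ hε'0] at hjj
        linarith
      have h10 : 4 * (k : ℝ) ≤ ε' * jj * k := mul_le_mul_of_nonneg_right h9 hk0
      have h11 : 0 ≤ ε' * (k : ℝ) := by positivity
      have h12 : ((jj : ℝ) + 1) * (ε' * k) = ε' * jj * k + ε' * k := by ring
      linarith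
    have h13 : 2 * (f.card : ℝ) ≤ (1 + n * L) + (M - k) + 3 + ε' * k := by
      have h14 : ((jj : ℝ) + 1) * (2 * f.card) ≤
          (jj + 1) * ((1 + n * L) + (M - k) + 3 + ε' * k) := by
        calc _ ≤ _ := h2
          _ ≤ (jj + 1) * ((1 + n * L) + (M - k) + 3) + (jj + 1) * (ε' * k) := by linarith
          _ = _ := by ring
      exact le_of_mul_le_mul_left h14 (by positivity)
    have h15 : (n : ℝ) * L ≤ 2 * (L' * n) := by
      have : ((n * L : ℕ) : ℝ) ≤ ((2 * (L' * n) : ℕ) : ℝ) := by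
        exact_mod_cast e3.trans e4.le
      push_cast at this
      exact this
    have h16 : (L' : ℝ) * (J * K) = L' * n + L' * r := by exact_mod_cast e2
    have h17 : ((f.card + 1 + (D₀ + L' * r + J * B) : ℕ) : ℝ) ≤ (d : ℝ) := by
      push_cast
      rw [h16] at hfin'
      have h18 : 0 ≤ ε' * (k : ℝ) := by positivity
      linarith
    exact_mod_cast h17
  obtain ⟨Y, Sp, hst', hinj, -⟩ := assembly N hNO hNs d Λ jj L L' K q B J D₀ hjj1 hsm
    (mu σ m a) (pr a) hdN hq hL hlt hpar hT hΛ hL' hB hF x J le_rfl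
  rw [← hM] at hst' hinj
  refine ⟨fun p => if m ≤ p then Y (p - m) else Y (a + (m - p)), ?_, ?_⟩
  · intro i hi
    show (if m ≤ i + 1 then Y (i + 1 - m) else Y (a + (m - (i + 1)))) ∈
      N (σ i) (if m ≤ i then Y (i - m) else Y (a + (m - i)))
    rcases Nat.lt_or_ge i m with h | h
    · rw [if_neg (show ¬ m ≤ i by omega)]
      have h1 := hst' (a + (m - i)) (by omega) (by omega)
      have hmu : mu σ m a (a + (m - i)) = !σ i := by
        unfold mu
        rw [if_neg (by omega)]
        congr 2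
        omega
      rw [hmu] at h1
      have h2 := hNs _ _ _ h1
      rw [Bool.not_not] at h2
      have h3 : Y (pr a (a + (m - i))) =
          (if m ≤ i + 1 then Y (i + 1 - m) else Y (a + (m - (i + 1)))) := by
        unfold pr
        split_ifs with h4 h5 h5
        · congr 1
          omega
        · omega
        · omega
        · congr 1
          omega
      rw [← h3]
      exact h2
    · rw [if_pos (show m ≤ i + 1 by omega), if_pos h]
      have h1 := hst' (i + 1 - m) (by omega) (by omega)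
      have hmu : mu σ m a (i + 1 - m) = σ i := by
        unfold mu
        rw [if_pos (by omega)]
        congr 1
        omega
      have hpr : pr a (i + 1 - m) = i - m := by
        unfold pr
        rw [if_neg (by omega)]
        omega
      rw [hmu, hpr] at h1
      exact h1
  · intro i hi i' hi' heq
    have heq' : (if m ≤ i then Y (i - m) else Y (a + (m - i))) =
      (if m ≤ i' then Y (i' - m) else Y (a + (m - i'))) := heq
    split_ifs at heq' with h1 h2 h2
    · have := hinj _ (by omega) _ (by omega) heq'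
      omega
    · have := hinj _ (by omega) _ (by omega) heq'
      omega
    · have := hinj _ (by omega) _ (by omega) heq'
      omega
    · have := hinj _ (by omega) _ (by omega) heq'
      omega

end Pool.Agent.Helper1.OE
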