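import Pool.Agent.Helper1.OE.Step

/-!
MP_f8e2d3_co: hosts with a one-sided degree bound. The stage.
-/

set_option autoImplicit false
set_option linter.unusedSectionVars false

namespace Pool.Agent.Helper1.OE

open Pool.Agent.Helper1.OP
open Pool.Agent.Helper1.OQ (dom hits vis)

variable {V : Type*} [Fintype V] [DecidableEq V]

theorem stage (O T : Bool → V → Finset V) (hO : ∀ b x y, y ∈ O b x → x ∉ O b y)
    (jj D Λ Λ₂ L L' K q B n₀ : ℕ) (μ : ℕ → Bool) (par : ℕ → ℕ) (Y0 : ℕ → V)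
    (S0 : Finset (Bool × V)) (hOD : ∀ b v, D ≤ (O b v).card)
    (hdom : ∀ a v z, z ∈ O a v → Λ < (dom T (!a) v).card →
      ((dom T (!a) v).filter fun w => z ∈ Rc T jj (!a) w).card ≤ Λ₂)
    (hq : 1 ≤ q) (hL : 1 ≤ L) (hT : K * L < D) (hn₀ : 1 ≤ n₀)
    (hlt : ∀ i, 1 ≤ i → par i < i)
    (hpar : ∀ n < K, ∀ j, 1 ≤ j → j < L → par (n₀ + n * L + j) = n₀ + n * L + j - 1)
    (hL' : 1 + (1 / (q : ℝ)) * (1 + 1 / (q : ℝ)) ^ L *
      ((L + 1) * D / (2 * (D - (K * L : ℕ)))) ≤ (1 + 1 / (q : ℝ)) ^ L')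
    (hB : (((2 * Λ + Λ₂) * (n₀ + K * L) : ℕ) : ℝ) * (1 + 1 / (q : ℝ)) ^ L <
      (1 + 1 / (q : ℝ)) ^ (B + 1))
    (hcard : S0.card ≤ (2 * Λ + Λ₂) * n₀)
    (hun : ∀ e ∉ S0, Good T jj μ par Y0 n₀ e ∧
      ∀ i ∈ hits Y0 1 n₀ (T e.1 e.2), Λ < (dom T e.1 (Y0 i)).card) :
    ∃ (Y : ℕ → V) (S : Finset (Bool × V)),
      (∀ i < n₀, Y i = Y0 i) ∧
      (∀ i, n₀ ≤ i → i < n₀ + K * L → Y i ∈ O (μ i) (Y (par i))) ∧
      (∀ i, n₀ ≤ i → i < n₀ + K * L → ∀ j, n₀ ≤ j → j < n₀ + K * L → Y i = Y j → i = j) ∧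
      S0 ⊆ S ∧ S.card ≤ (2 * Λ + Λ₂) * (n₀ + K * L) ∧
      (∀ e ∉ S, Good T jj μ par Y (n₀ + K * L) e ∧
        ∀ i ∈ hits Y 1 (n₀ + K * L) (T e.1 e.2), Λ < (dom T e.1 (Y i)).card) ∧
      ∀ e ∈ S, ∃ n ≤ K, ((e ∈ S0 ∧ n = 0) ∨ ((T e.1 e.2).Nonempty ∧
          Good T jj μ par Y (n₀ + n * L) e ∧
          ∀ i ∈ hits Y 1 (n₀ + n * L) (T e.1 e.2), Λ < (dom T e.1 (Y i)).card)) ∧
        min D (T e.1 e.2 \ vis Y (n₀ + n * L)).card ≤
          (T e.1 e.2 \ vis Y (n₀ + K * L)).card + (L' * (K - n) + B) := by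
  have hind : ∀ n ≤ K, ∃ Y S idx A,
      Inv O T jj D Λ Λ₂ L L' q n₀ μ par Y0 S0 n Y S idx A := by
    intro n
    induction n with
    | zero =>
      intro _
      obtain ⟨A, hA⟩ := inv_zero O T jj D Λ Λ₂ L L' q n₀ μ par Y0 S0 hcard hun
      exact ⟨Y0, S0, _, A, hA⟩
    | succ n ih =>
      intro hn
      obtain ⟨Y, S, idx, A, I⟩ := ih (by omega)
      exact inv_step O T hO jj D Λ Λ₂ L L' K q n₀ μ par Y0 S0 hOD hdom hq hL hT hn₀ hlt hpar hL'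
        n (by omega) Y S idx A I
  obtain ⟨Y, S, idx, A, I⟩ := hind K le_rfl
  refine ⟨Y, S, I.agree, I.step, I.inj, I.sub, I.card, I.unprot, ?_⟩
  intro e he
  have hidx := I.idx_le e he
  refine ⟨idx e, hidx, I.entry e he, ?_⟩
  have hq0 : (0 : ℝ) < q := by exact_mod_cast hq
  have hδ : (0 : ℝ) < 1 / (q : ℝ) := by positivity
  have h1δ : (1 : ℝ) < 1 + 1 / (q : ℝ) := by linarith
  -- the exponent bound
  have h1 : (1 + 1 / (q : ℝ)) ^
      (L' * idx e + (hits Y (n₀ + idx e * L) (n₀ + K * L) (A e)).card) <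
      (1 + 1 / (q : ℝ)) ^ (B + 1 + L' * K) := by
    have h2 : (1 + 1 / (q : ℝ)) ^
      (L' * idx e + (hits Y (n₀ + idx e * L) (n₀ + K * L) (A e)).card) ≤
        ∑ e ∈ S, (1 + 1 / (q : ℝ)) ^
      (L' * idx e + (hits Y (n₀ + idx e * L) (n₀ + K * L) (A e)).card) :=
      Finset.single_le_sum (f := fun e => (1 + 1 / (q : ℝ)) ^
      (L' * idx e + (hits Y (n₀ + idx e * L) (n₀ + K * L) (A e)).card))
        (fun e _ => by positivity) he
    refine lt_of_le_of_lt (h2.trans I.pot) ?_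
    rw [pow_add]
    exact mul_lt_mul_of_pos_right hB (by positivity)
  have h2 : L' * idx e + (hits Y (n₀ + idx e * L) (n₀ + K * L) (A e)).card <
      B + 1 + L' * K := (pow_lt_pow_iff_right₀ h1δ).1 h1
  obtain ⟨r, hr⟩ : ∃ r, K = idx e + r := ⟨K - idx e, by omega⟩
  have h3 : (hits Y (n₀ + idx e * L) (n₀ + K * L) (A e)).card ≤ L' * (K - idx e) + B := by
    have e1 : K - idx e = r := by omega
    have e2 : L' * K = L' * idx e + L' * r := by rw [hr]; ring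
    rw [e1]
    omega
  rw [← I.A_card e he]
  have hsub := I.A_sub e he
  have h4 : (A e).card ≤ (A e ∩ vis Y (n₀ + K * L)).card + (A e \ vis Y (n₀ + K * L)).card := by
    rw [Finset.card_inter_add_card_sdiff]
  have h5 : (A e ∩ vis Y (n₀ + K * L)).card ≤
      (hits Y (n₀ + idx e * L) (n₀ + K * L) (A e)).card := by
    refine le_trans (Finset.card_le_card (t := (hits Y (n₀ + idx e * L) (n₀ + K * L)
      (A e)).image Y) ?_) Finset.card_image_le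
    intro u hu
    rw [Finset.mem_inter] at hu
    obtain ⟨hu1, hu2⟩ := hu
    have h6 := hsub hu1
    rw [Finset.mem_sdiff] at h6
    unfold vis at hu2 h6
    rw [Finset.mem_image] at hu2
    obtain ⟨i, hi, rfl⟩ := hu2
    rw [Finset.mem_range] at hi
    rw [Finset.mem_image]
    refine ⟨i, ?_, rfl⟩
    unfold hits
    rw [Finset.mem_filter, Finset.mem_Ico]
    refine ⟨⟨?_, hi⟩, hu1⟩
    by_contra hcon
    push Not at hcon
    exact h6.2 (Finset.mem_image_of_mem _ (Finset.mem_range.2 hcon))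
  have h6 : (A e \ vis Y (n₀ + K * L)).card ≤ (T e.1 e.2 \ vis Y (n₀ + K * L)).card := by
    apply Finset.card_le_card
    apply Finset.sdiff_subset_sdiff _ subset_rfl
    exact hsub.trans Finset.sdiff_subset
  omega

end Pool.Agent.Helper1.OE
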