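import Pool.Agent.Helper1.OE.Basic

/-!
MP_f8e2d3_co: hosts with a one-sided degree bound. One window of a stage.
-/

set_option autoImplicit false
set_option linter.unusedSectionVars false

namespace Pool.Agent.Helper1.OE

open Pool.Agent.Helper1.OP
open Pool.Agent.Helper1.OQ (dom hits vis hits_congr vis_congr hits_split hits_window hits_card_le
  windowR pot_grow)

variable {V : Type*} [Fintype V] [DecidableEq V]

/-- The invariant after `n` windows of a stage that starts at time `n₀`. -/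
structure Inv (O T : Bool → V → Finset V) (jj D Λ Λ₂ L L' q n₀ : ℕ) (μ : ℕ → Bool)
    (par : ℕ → ℕ) (Y0 : ℕ → V) (S0 : Finset (Bool × V)) (n : ℕ) (Y : ℕ → V)
    (S : Finset (Bool × V)) (idx : Bool × V → ℕ) (A : Bool × V → Finset V) : Prop where
  agree : ∀ i < n₀, Y i = Y0 i
  step : ∀ i, n₀ ≤ i → i < n₀ + n * L → Y i ∈ O (μ i) (Y (par i))
  inj : ∀ i, n₀ ≤ i → i < n₀ + n * L → ∀ j, n₀ ≤ j → j < n₀ + n * L → Y i = Y j → i = j
  sub : S0 ⊆ S
  card : S.card ≤ (2 * Λ + Λ₂) * (n₀ + n * L)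
  idx_le : ∀ e ∈ S, idx e ≤ n
  entry : ∀ e ∈ S, (e ∈ S0 ∧ idx e = 0) ∨ ((T e.1 e.2).Nonempty ∧
    Good T jj μ par Y (n₀ + idx e * L) e ∧
    ∀ i ∈ hits Y 1 (n₀ + idx e * L) (T e.1 e.2), Λ < (dom T e.1 (Y i)).card)
  A_sub : ∀ e ∈ S, A e ⊆ T e.1 e.2 \ vis Y (n₀ + idx e * L)
  A_card : ∀ e ∈ S, (A e).card = min D (T e.1 e.2 \ vis Y (n₀ + idx e * L)).card
  unprot : ∀ e ∉ S, Good T jj μ par Y (n₀ + n * L) e ∧
    ∀ i ∈ hits Y 1 (n₀ + n * L) (T e.1 e.2), Λ < (dom T e.1 (Y i)).card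
  pot : ∑ e ∈ S, (1 + 1 / (q : ℝ)) ^
      (L' * idx e + (hits Y (n₀ + idx e * L) (n₀ + n * L) (A e)).card) ≤
    (((2 * Λ + Λ₂) * (n₀ + n * L) : ℕ) : ℝ) * (1 + 1 / (q : ℝ)) ^ L *
      (1 + 1 / (q : ℝ)) ^ (L' * n)

theorem inv_zero (O T : Bool → V → Finset V) (jj D Λ Λ₂ L L' q n₀ : ℕ) (μ : ℕ → Bool)
    (par : ℕ → ℕ) (Y0 : ℕ → V) (S0 : Finset (Bool × V))
    (hcard : S0.card ≤ (2 * Λ + Λ₂) * n₀)
    (hun : ∀ e ∉ S0, Good T jj μ par Y0 n₀ e ∧
      ∀ i ∈ hits Y0 1 n₀ (T e.1 e.2), Λ < (dom T e.1 (Y0 i)).card) :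
    ∃ A, Inv O T jj D Λ Λ₂ L L' q n₀ μ par Y0 S0 0 Y0 S0 (fun _ => 0) A := by
  have hex : ∀ e : Bool × V, ∃ B ⊆ T e.1 e.2 \ vis Y0 (n₀ + 0 * L),
      B.card = min D (T e.1 e.2 \ vis Y0 (n₀ + 0 * L)).card := fun e =>
    Finset.exists_subset_card_eq (min_le_right _ _)
  choose A hA1 hA2 using hex
  refine ⟨A, fun _ _ => rfl, ?_, ?_, subset_rfl, ?_, fun _ _ => le_rfl, ?_, ?_, ?_, ?_, ?_⟩
  · intro i h1 h2
    omega
  · intro i h1 h2
    omega
  · simpa using hcard
  · intro e he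
    exact Or.inl ⟨he, rfl⟩
  · intro e _
    exact hA1 e
  · intro e _
    exact hA2 e
  · simpa using hun
  · have h1 : ∑ e ∈ S0, (1 + 1 / (q : ℝ)) ^
        (L' * 0 + (hits Y0 (n₀ + 0 * L) (n₀ + 0 * L) (A e)).card) = S0.card := by
      have : ∀ e ∈ S0, (1 + 1 / (q : ℝ)) ^
        (L' * 0 + (hits Y0 (n₀ + 0 * L) (n₀ + 0 * L) (A e)).card) = 1 := by
        intro e _
        simp [hits]
      rw [Finset.sum_congr rfl this]
      simp
    show ∑ e ∈ S0, (1 + 1 / (q : ℝ)) ^
        (L' * 0 + (hits Y0 (n₀ + 0 * L) (n₀ + 0 * L) (A e)).card) ≤ _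
    rw [h1]
    have h2 : (S0.card : ℝ) ≤ (((2 * Λ + Λ₂) * (n₀ + 0 * L) : ℕ) : ℝ) := by
      have : S0.card ≤ (2 * Λ + Λ₂) * (n₀ + 0 * L) := by simpa using hcard
      exact_mod_cast this
    have h3 : (1 : ℝ) ≤ (1 + 1 / (q : ℝ)) ^ L := by
      apply one_le_pow₀
      have : (0 : ℝ) ≤ 1 / (q : ℝ) := by positivity
      linarith
    have h4 : (0 : ℝ) ≤ (((2 * Λ + Λ₂) * (n₀ + 0 * L) : ℕ) : ℝ) := Nat.cast_nonneg _
    rw [Nat.mul_zero, pow_zero, mul_one]
    nlinarith

theorem inv_step (O T : Bool → V → Finset V) (hO : ∀ b x y, y ∈ O b x → x ∉ O b y)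
    (jj D Λ Λ₂ L L' K q n₀ : ℕ) (μ : ℕ → Bool) (par : ℕ → ℕ) (Y0 : ℕ → V)
    (S0 : Finset (Bool × V)) (hOD : ∀ b v, D ≤ (O b v).card)
    (hdom : ∀ a v z, z ∈ O a v → Λ < (dom T (!a) v).card →
      ((dom T (!a) v).filter fun w => z ∈ Rc T jj (!a) w).card ≤ Λ₂)
    (hq : 1 ≤ q) (hL : 1 ≤ L) (hT : K * L < D) (hn₀ : 1 ≤ n₀)
    (hlt : ∀ i, 1 ≤ i → par i < i)
    (hpar : ∀ n < K, ∀ j, 1 ≤ j → j < L → par (n₀ + n * L + j) = n₀ + n * L + j - 1)
    (hL' : 1 + (1 / (q : ℝ)) * (1 + 1 / (q : ℝ)) ^ L *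
      ((L + 1) * D / (2 * (D - (K * L : ℕ)))) ≤ (1 + 1 / (q : ℝ)) ^ L')
    (n : ℕ) (hn : n < K) (Y : ℕ → V) (S : Finset (Bool × V)) (idx : Bool × V → ℕ)
    (A : Bool × V → Finset V)
    (I : Inv O T jj D Λ Λ₂ L L' q n₀ μ par Y0 S0 n Y S idx A) :
    ∃ Y' S' idx' A', Inv O T jj D Λ Λ₂ L L' q n₀ μ par Y0 S0 (n + 1) Y' S' idx' A' := by
  have hsucc : n₀ + (n + 1) * L = n₀ + n * L + L := by ring
  set t : ℕ := n₀ + n * L with ht
  have hKL : (n + 1) * L ≤ K * L := Nat.mul_le_mul_right _ hn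
  have hnL : n * L + L ≤ K * L := by
    have : (n + 1) * L = n * L + L := by ring
    omega
  have hFc : ((Finset.Ico n₀ t).image Y).card + L ≤ K * L := by
    have := Finset.card_image_le (s := Finset.Ico n₀ t) (f := Y)
    rw [Nat.card_Ico] at this
    omega
  have hAD : ∀ e ∈ S, (A e).card ≤ D := by
    intro e he
    rw [I.A_card e he]
    exact min_le_left _ _
  obtain ⟨X, hX0, hX1, hX2, hX3, hX4⟩ := windowR O hO μ D (K * L) L q hOD hT hq S A hAD
    (fun e => L' * idx e + (hits Y (n₀ + idx e * L) t (A e)).card)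
    ((Finset.Ico n₀ t).image Y) hFc (Y (par t)) t
  set Y' : ℕ → V := fun i => if i < t then Y i else X (i - t + 1) with hY'
  have hY1 : ∀ i < t, Y' i = Y i := fun i hi => by simp [hY', hi]
  have hY2 : ∀ j, Y' (t + j) = X (j + 1) := by
    intro j
    simp only [hY']
    rw [if_neg (by omega)]
    congr 1
    omega
  have htpos : 1 ≤ t := by omega
  -- the parents
  have hYpar : ∀ j < L, Y' (par (t + j)) = X j := by
    intro j hj
    rcases Nat.eq_zero_or_pos j with h | h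
    · subst h
      have h1 := hlt t htpos
      rw [Nat.add_zero, hY1 _ h1, hX0]
    · rw [hpar n hn j h hj]
      have e1 : t + j - 1 = t + (j - 1) := by omega
      rw [e1, hY2]
      congr 1
      omega
  have hstepNew : ∀ j < L, Y' (t + j) ∈ O (μ (t + j)) (Y' (par (t + j))) := by
    intro j hj
    rw [hY2, hYpar j hj]
    exact hX1 j hj
  set S' : Finset (Bool × V) := S ∪ (Finset.range L).biUnion fun j =>
    R T jj Λ Λ₂ (μ (t + j)) (Y' (t + j)) (Y' (par (t + j))) with hS'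
  have hnewcard : ((Finset.range L).biUnion fun j =>
      R T jj Λ Λ₂ (μ (t + j)) (Y' (t + j)) (Y' (par (t + j)))).card ≤ L * (2 * Λ + Λ₂) := by
    refine Finset.card_biUnion_le.trans ?_
    refine (Finset.sum_le_sum (fun j _ => R_card T jj Λ Λ₂ (μ (t + j)) (Y' (t + j))
      (Y' (par (t + j))))).trans ?_
    rw [Finset.sum_const, Finset.card_range, smul_eq_mul]
  have hex : ∀ e : Bool × V, ∃ B ⊆ T e.1 e.2 \ vis Y' (n₀ + n * L),
      B.card = min D (T e.1 e.2 \ vis Y' (n₀ + n * L)).card := fun e =>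
    Finset.exists_subset_card_eq (min_le_right _ _)
  choose A1 hA1 hA2 using hex
  have hvis : ∀ e ∈ S, vis Y' (n₀ + idx e * L) = vis Y (n₀ + idx e * L) := by
    intro e he
    apply vis_congr Y Y' t _ hY1
    have := Nat.mul_le_mul_right L (I.idx_le e he)
    omega
  have hSS' : S ⊆ S' := Finset.subset_union_left
  refine ⟨Y', S', fun e => if e ∈ S then idx e else n, fun e => if e ∈ S then A e else A1 e,
    ?_, ?_, ?_, I.sub.trans hSS', ?_, ?_, ?_, ?_, ?_, ?_, ?_⟩
  · intro i hi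
    rw [hY1 i (by omega)]
    exact I.agree i hi
  · intro i hi hi2
    rcases Nat.lt_or_ge i t with h | h
    · rw [hY1 i h, hY1 (par i) (by have := hlt i (by omega); omega)]
      exact I.step i hi h
    · obtain ⟨j, hj⟩ : ∃ j, i = t + j := ⟨i - t, by omega⟩
      subst hj
      exact hstepNew j (by omega)
  · -- injectivity
    have key : ∀ j < L, ∀ i, n₀ ≤ i → i < t → Y' (t + j) ≠ Y' i := by
      intro j hj i hi hi2 heq
      rw [hY2, hY1 i hi2] at heq
      apply hX2 j hj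
      rw [heq]
      exact Finset.mem_image_of_mem _ (Finset.mem_Ico.2 ⟨hi, hi2⟩)
    intro i hi hi2 j hj hj2 heq
    rcases Nat.lt_or_ge i t with h | h <;> rcases Nat.lt_or_ge j t with h' | h'
    · rw [hY1 i h, hY1 j h'] at heq
      exact I.inj i hi h j hj h' heq
    · obtain ⟨l, hl⟩ : ∃ l, j = t + l := ⟨j - t, by omega⟩
      subst hl
      exact absurd heq.symm (key l (by omega) i hi h)
    · obtain ⟨l, hl⟩ : ∃ l, i = t + l := ⟨i - t, by omega⟩
      subst hl
      exact absurd heq (key l (by omega) j hj h')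
    · obtain ⟨l, hl⟩ : ∃ l, i = t + l := ⟨i - t, by omega⟩
      obtain ⟨l', hl'⟩ : ∃ l, j = t + l := ⟨j - t, by omega⟩
      subst hl hl'
      rw [hY2, hY2] at heq
      rw [hX3 l (by omega) l' (by omega) heq]
  · -- card
    refine (Finset.card_union_le _ _).trans ?_
    have h1 := I.card
    rw [← ht] at h1
    rw [hsucc]
    calc _ ≤ (2 * Λ + Λ₂) * t + L * (2 * Λ + Λ₂) := add_le_add h1 hnewcard
      _ = _ := by ring
  · intro e _
    show (if e ∈ S then idx e else n) ≤ n + 1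
    split_ifs with h
    · have := I.idx_le e h
      omega
    · omega
  · intro e he
    show (e ∈ S0 ∧ (if e ∈ S then idx e else n) = 0) ∨ ((T e.1 e.2).Nonempty ∧
      Good T jj μ par Y' (n₀ + (if e ∈ S then idx e else n) * L) e ∧
      ∀ i ∈ hits Y' 1 (n₀ + (if e ∈ S then idx e else n) * L) (T e.1 e.2),
        Λ < (dom T e.1 (Y' i)).card)
    by_cases h : e ∈ S
    · rw [if_pos h]
      have hle : n₀ + idx e * L ≤ t := by
        have := Nat.mul_le_mul_right L (I.idx_le e h)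
        omega
      obtain h3 | ⟨h3, h4, h5⟩ := I.entry e h
      · exact Or.inl h3
      · refine Or.inr ⟨h3, Good_congr T jj μ par Y Y' t _ e hY1 hle h4, ?_⟩
        rw [hits_congr Y Y' 1 t _ _ hY1 hle]
        intro i hi
        have hi' := hi
        unfold hits at hi'
        rw [Finset.mem_filter, Finset.mem_Ico] at hi'
        rw [hY1 i (by omega)]
        exact h5 i hi
    · rw [if_neg h]
      right
      refine ⟨?_, Good_congr T jj μ par Y Y' t _ e hY1 le_rfl (I.unprot e h).1, ?_⟩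
      · rw [hS', Finset.mem_union] at he
        obtain he | he := he
        · exact absurd he h
        · rw [Finset.mem_biUnion] at he
          obtain ⟨j, _, hj⟩ := he
          exact R_nonempty T jj Λ Λ₂ _ _ _ e hj
      · rw [hits_congr Y Y' 1 t _ _ hY1 le_rfl]
        intro i hi
        have hi' := hi
        unfold hits at hi'
        rw [Finset.mem_filter, Finset.mem_Ico] at hi'
        rw [hY1 i (by omega)]
        exact (I.unprot e h).2 i hi
  · intro e he
    show (if e ∈ S then A e else A1 e) ⊆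
      T e.1 e.2 \ vis Y' (n₀ + (if e ∈ S then idx e else n) * L)
    by_cases h : e ∈ S
    · rw [if_pos h, if_pos h, hvis e h]
      exact I.A_sub e h
    · rw [if_neg h, if_neg h]
      exact hA1 e
  · intro e he
    show (if e ∈ S then A e else A1 e).card =
      min D (T e.1 e.2 \ vis Y' (n₀ + (if e ∈ S then idx e else n) * L)).card
    by_cases h : e ∈ S
    · rw [if_pos h, if_pos h, hvis e h]
      exact I.A_card e h
    · rw [if_neg h, if_neg h]
      exact hA2 e
  · -- unprotected sets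
    intro e he
    have heS : e ∉ S := fun h => he (hSS' h)
    have heR : ∀ j < L, e ∉ R T jj Λ Λ₂ (μ (t + j)) (Y' (t + j)) (Y' (par (t + j))) := by
      intro j hj h
      apply he
      rw [hS']
      exact Finset.mem_union_right _ (Finset.mem_biUnion.2 ⟨j, Finset.mem_range.2 hj, h⟩)
    obtain ⟨hu1, hu2⟩ := I.unprot e heS
    have hbig : ∀ i ∈ hits Y' 1 (n₀ + (n + 1) * L) (T e.1 e.2),
        Λ < (dom T e.1 (Y' i)).card := by
      intro i hi
      unfold hits at hi
      rw [Finset.mem_filter, Finset.mem_Ico, hsucc] at hi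
      rcases Nat.lt_or_ge i t with h | h
      · rw [hY1 i h]
        apply hu2
        unfold hits
        rw [Finset.mem_filter, Finset.mem_Ico]
        refine ⟨⟨hi.1.1, h⟩, ?_⟩
        rw [← hY1 i h]
        exact hi.2
      · obtain ⟨j, hj⟩ : ∃ j, i = t + j := ⟨i - t, by omega⟩
        subst hj
        by_contra hcon
        push Not at hcon
        apply heR j (by omega)
        unfold R
        rw [Finset.mem_filter]
        exact ⟨Finset.mem_univ _, Or.inl ⟨hi.2, hcon⟩⟩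
    refine ⟨?_, hbig⟩
    intro l hl1 hl2 hμ hpl
    rw [hsucc] at hl2
    rcases Nat.lt_or_ge l t with h | h
    · have hp := hlt l hl1
      rw [hY1 l h]
      apply hu1 l hl1 h hμ
      unfold hits at hpl ⊢
      rw [Finset.mem_filter, Finset.mem_Ico] at hpl ⊢
      refine ⟨⟨hpl.1.1, by omega⟩, ?_⟩
      rw [← hY1 (par l) (by omega)]
      exact hpl.2
    · obtain ⟨j, hj⟩ : ∃ j, l = t + j := ⟨l - t, by omega⟩
      subst hj
      have h1 := hbig _ hpl
      have h2 := hdom (μ (t + j)) (Y' (par (t + j))) (Y' (t + j)) (hstepNew j (by omega))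
      have h3 : (!(μ (t + j))) = e.1 := by rw [hμ]; simp
      rw [h3] at h2
      intro hcon
      apply heR j (by omega)
      unfold R
      rw [Finset.mem_filter]
      refine ⟨Finset.mem_univ _, Or.inr ⟨h3.symm, ?_, hcon, h2 h1⟩⟩
      unfold hits at hpl
      rw [Finset.mem_filter] at hpl
      exact hpl.2
  · -- potential
    have hδ : (0 : ℝ) ≤ 1 / (q : ℝ) := by positivity
    have h1δ : (1 : ℝ) ≤ 1 + 1 / (q : ℝ) := by linarith
    rw [← Finset.sum_sdiff hSS']
    have hnew : ∑ e ∈ S' \ S, (1 + 1 / (q : ℝ)) ^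
        (L' * (if e ∈ S then idx e else n) + (hits Y' (n₀ + (if e ∈ S then idx e else n) * L)
          (n₀ + (n + 1) * L) (if e ∈ S then A e else A1 e)).card) ≤
        ((L * (2 * Λ + Λ₂) : ℕ) : ℝ) * ((1 + 1 / (q : ℝ)) ^ L *
          (1 + 1 / (q : ℝ)) ^ (L' * n)) := by
      have h1 : ∀ e ∈ S' \ S, (1 + 1 / (q : ℝ)) ^
        (L' * (if e ∈ S then idx e else n) + (hits Y' (n₀ + (if e ∈ S then idx e else n) * L)
          (n₀ + (n + 1) * L) (if e ∈ S then A e else A1 e)).card) ≤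
          (1 + 1 / (q : ℝ)) ^ L * (1 + 1 / (q : ℝ)) ^ (L' * n) := by
        intro e he
        rw [Finset.mem_sdiff] at he
        rw [if_neg he.2, if_neg he.2, hsucc, ← ht, ← pow_add]
        apply pow_le_pow_right₀ h1δ
        have := hits_card_le Y' t L (A1 e)
        omega
      refine (Finset.sum_le_sum h1).trans ?_
      rw [Finset.sum_const, nsmul_eq_mul]
      have h2 : (S' \ S).card ≤ L * (2 * Λ + Λ₂) := by
        refine le_trans (Finset.card_le_card ?_) hnewcard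
        intro e he
        rw [Finset.mem_sdiff, hS', Finset.mem_union] at he
        tauto
      have h3 : ((S' \ S).card : ℝ) ≤ ((L * (2 * Λ + Λ₂) : ℕ) : ℝ) := by exact_mod_cast h2
      gcongr
    have hold : ∑ e ∈ S, (1 + 1 / (q : ℝ)) ^
        (L' * (if e ∈ S then idx e else n) + (hits Y' (n₀ + (if e ∈ S then idx e else n) * L)
          (n₀ + (n + 1) * L) (if e ∈ S then A e else A1 e)).card) ≤
        (1 + 1 / (q : ℝ)) ^ L' * ((((2 * Λ + Λ₂) * t : ℕ) : ℝ) * (1 + 1 / (q : ℝ)) ^ L *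
      (1 + 1 / (q : ℝ)) ^ (L' * n)) := by
      have h1 : ∀ e ∈ S, (1 + 1 / (q : ℝ)) ^
        (L' * (if e ∈ S then idx e else n) + (hits Y' (n₀ + (if e ∈ S then idx e else n) * L)
          (n₀ + (n + 1) * L) (if e ∈ S then A e else A1 e)).card) ≤
          (1 + 1 / (q : ℝ)) ^ (L' * idx e + (hits Y (n₀ + idx e * L) t (A e)).card +
            ((Finset.range L).filter fun i => X (i + 1) ∈ A e).card) := by
        intro e he
        rw [if_pos he, if_pos he, hsucc]
        apply pow_le_pow_right₀ h1δ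
        have hidx := Nat.mul_le_mul_right L (I.idx_le e he)
        rw [hits_split Y' (n₀ + idx e * L) t (t + L) (A e) (by omega) (by omega),
          hits_congr Y Y' (n₀ + idx e * L) t t (A e) hY1 le_rfl]
        have h2 := hits_window Y' t L (A e)
        have h3 : ((Finset.range L).filter fun j => Y' (t + j) ∈ A e) =
            ((Finset.range L).filter fun i => X (i + 1) ∈ A e) := by
          apply Finset.filter_congr
          intro j _
          rw [hY2]
        rw [h3] at h2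
        omega
      refine (Finset.sum_le_sum h1).trans ?_
      refine (pot_grow (1 / (q : ℝ)) _ hδ L S _ _ ?_ hX4).trans ?_
      · intro e _
        refine (Finset.card_filter_le _ _).trans ?_
        simp
      · have h2 := I.pot
        rw [← ht] at h2
        have h3 : 0 ≤ ∑ e ∈ S, (1 + 1 / (q : ℝ)) ^
            (L' * idx e + (hits Y (n₀ + idx e * L) t (A e)).card) :=
          Finset.sum_nonneg fun e _ => by positivity
        have h4 : (0 : ℝ) ≤ (1 + 1 / (q : ℝ)) ^ L' := by positivity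
        calc _ ≤ (1 + 1 / (q : ℝ)) ^ L' * ∑ e ∈ S, (1 + 1 / (q : ℝ)) ^
            (L' * idx e + (hits Y (n₀ + idx e * L) t (A e)).card) :=
              mul_le_mul_of_nonneg_right hL' h3
          _ ≤ _ := mul_le_mul_of_nonneg_left h2 h4
    have hsum := add_le_add hnew hold
    refine hsum.trans ?_
    rw [hsucc]
    have h5 : (1 + 1 / (q : ℝ)) ^ (L' * (n + 1)) =
        (1 + 1 / (q : ℝ)) ^ L' * (1 + 1 / (q : ℝ)) ^ (L' * n) := by
      rw [← pow_add]
      congr 1
      ring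
    rw [h5]
    have h6 : (1 : ℝ) ≤ (1 + 1 / (q : ℝ)) ^ L' := one_le_pow₀ h1δ
    set a1 : ℝ := (1 + 1 / (q : ℝ)) ^ L with ha1
    set a2 : ℝ := (1 + 1 / (q : ℝ)) ^ L' with ha2
    set a3 : ℝ := (1 + 1 / (q : ℝ)) ^ (L' * n) with ha3
    have ha1' : 0 ≤ a1 := by positivity
    have ha3' : 0 ≤ a3 := by positivity
    push_cast
    have h7 : 0 ≤ (L : ℝ) * (2 * Λ + Λ₂) * (a1 * a3) := by positivity
    nlinarith
  
end Pool.Agent.Helper1.OE
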